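import Pool.Agent.W_MP_315f31_lc.Bridge

set_option autoImplicit false

/-!
# MP_315f31_lc, Q1 : DCFA and the negation of CH do not imply the tree property on `ω₂`

If there is a supercompact cardinal (`DCT.IsSupercompact κ`: `κ` is inaccessible and every type `A` of the
universe carries a fine normal `κ`-complete ultrafilter on the subsets of `A` of size `< κ`), there is
a countable well-founded model `(M, E)` of ZFC in which `DCFA` and the negation of `CH` hold and which
has an `ω₂`-Aronszajn tree.  The notions of the problem (completeness systems, dee-completeness,
`α`-properness, `DCFA`, Aronszajn trees) are defined in `Pool/Agent/W_MP_315f31_lc/Thm.lean`.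

Proof: countable support iteration of length `κ`.  Stage `l` (limit) is the lottery of all minimal
counterexamples over `P_l` to the forcing axiom for the posets which are totally proper with respect to the ground
model (for a club of countable `N` in the ground model, with `N[G]` in place of `N`, there are lower bounds of
`N[G]`-generic filters); stage `l + 1` for `l` of uncountable cofinality adds a branch of length `l` through a tree
of height `κ` which is being built along the iteration; further stages are Cohen forcing and the collapse of
`l` to `ω₁`.  By supercompactness a counterexample to the axiom in the extension reflects to a counterexample over some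
`P_δ`, and the lottery at `δ` kills it.  Dee-complete `<ω₁`-proper posets are totally proper in this sense.
-/

universe u

namespace Pool.Agent.Results.MP_315f31_lc.DCFAWithoutTreeProperty

theorem result (κ : Cardinal.{u}) (h : DCT.IsSupercompact κ) :
    ∃ (M : Type (u + 1)) (E : M → M → Prop), Countable M ∧ WellFounded E ∧ HESR.IsZFC E ∧
      DCT.DCFA E ∧ DCT.NotCH E ∧ DCT.HasAT E :=
  DCT.main κ h

end Pool.Agent.Results.MP_315f31_lc.DCFAWithoutTreeProperty
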